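import Mathlib
import Pool.Agent.R294.Carl1

/-!
# Kernels of normal Carleman operators are square-integrable in the first variable
-/

open MeasureTheory
open scoped ENNReal

namespace Pool.Agent.Results.MP_0ee9ff_an.NormalCarleman

/-- Let `μ` be a σ-finite measure with separable `L²(μ)` (for instance Lebesgue measure on an
interval), and let `N` be a bounded normal operator on the complex Hilbert space `L²(μ)` which is
a Carleman operator with kernel `ν`.  Then `∫ |ν (x, y)|² dμ(x) < ∞` for almost every `y`. -/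
theorem result {X : Type*} [MeasurableSpace X] (μ : Measure X) [SigmaFinite μ] [IsSeparable μ]
    (N : Lp ℂ 2 μ →L[ℂ] Lp ℂ 2 μ) (hN : IsStarNormal N) (ν : X × X → ℂ)
    (h : Pool.Agent.R294.Carl.IsCarlemanKernel μ N ν) :
    ∀ᵐ y ∂μ, ∫⁻ x, ‖ν (x, y)‖ₑ ^ 2 ∂μ < ∞ :=
  Pool.Agent.R294.Carl.main hN h

/-- the theorem applies to Lebesgue measure on an arbitrary interval -/
example (a b : EReal) (N : Lp ℂ 2 (volume.restrict {x : ℝ | a < x ∧ x < b}) →L[ℂ]
      Lp ℂ 2 (volume.restrict {x : ℝ | a < x ∧ x < b})) (hN : IsStarNormal N) (ν : ℝ × ℝ → ℂ)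
    (h : Pool.Agent.R294.Carl.IsCarlemanKernel (volume.restrict {x : ℝ | a < x ∧ x < b}) N ν) :
    ∀ᵐ y ∂(volume.restrict {x : ℝ | a < x ∧ x < b}),
      ∫⁻ x in {x : ℝ | a < x ∧ x < b}, ‖ν (x, y)‖ₑ ^ 2 < ∞ :=
  result _ N hN ν h

end Pool.Agent.Results.MP_0ee9ff_an.NormalCarleman
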